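import Pool.Agent.Helper62.PM.St4

/-!
# Project PM, module ND: the inequality for Borel subsets of (-1,1)
-/

set_option autoImplicit false

open MeasureTheory Metric Set Filter Topology
open scoped RealInnerProductSpace ContDiff

namespace Pool.Agent.Helper69.PM

open Pool.Agent.Helper62.PM
open Pool.Agent.Helper62.Mink

private noncomputable def ff (t : ℝ) : ℝ := |t| / (1 - t ^ 2)

private lemma one_sub_pos {t : ℝ} (ht : t ∈ Ioo (-1 : ℝ) 1) : 0 < 1 - t ^ 2 := by
  have h1 := ht.1
  have h2 := ht.2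
  nlinarith

private lemma ff_nonneg {t : ℝ} (ht : t ∈ Ioo (-1 : ℝ) 1) : 0 ≤ ff t :=
  div_nonneg (abs_nonneg _) (one_sub_pos ht).le

private lemma ff_meas : Measurable ff := by
  unfold ff
  fun_prop

private noncomputable def dd (t : ℝ) : ENNReal := ENNReal.ofReal (ff t)

private lemma dd_meas : Measurable dd := ff_meas.ennreal_ofReal

private noncomputable def mm : Measure ℝ := (volume.restrict (Ioo (-1 : ℝ) 1)).withDensity dd

private lemma mm_compact {K : Set ℝ} (hK : IsCompact K) (hs : K ⊆ Ioo (-1 : ℝ) 1) : mm K < ⊤ := by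
  unfold mm
  rw [withDensity_apply _ hK.measurableSet, Measure.restrict_restrict hK.measurableSet,
    inter_eq_self_of_subset_left hs]
  have hc : ContinuousOn ff K := by
    unfold ff
    refine ContinuousOn.div (by fun_prop) (by fun_prop) ?_
    intro t ht
    exact (one_sub_pos (hs ht)).ne'
  have hi : IntegrableOn ff K volume := hc.integrableOn_compact hK
  exact hi.lintegral_lt_top

section psi
variable {φ : ℝ → ℝ}

private noncomputable def psi (φ : ℝ → ℝ) (t : ℝ) : ℝ := φ t / (1 - t ^ 2)

private lemma psi_smooth (h1 : ContDiff ℝ ∞ φ) (h3 : tsupport φ ⊆ Ioo (-1 : ℝ) 1) :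
    ContDiff ℝ ∞ (psi φ) := by
  rw [contDiff_iff_contDiffAt]
  intro t
  by_cases ht : t ∈ tsupport φ
  · unfold psi
    refine ContDiffAt.div h1.contDiffAt (by fun_prop) ?_
    exact (one_sub_pos (h3 ht)).ne'
  · have h4 : φ =ᶠ[𝓝 t] 0 := notMem_tsupport_iff_eventuallyEq.1 ht
    have h5 : psi φ =ᶠ[𝓝 t] fun _ => 0 := by
      filter_upwards [h4] with x hx
      unfold psi
      rw [hx]
      simp
    exact contDiffAt_const.congr_of_eventuallyEq h5

private lemma psi_nonneg (h3 : tsupport φ ⊆ Ioo (-1 : ℝ) 1) (h4 : ∀ t, 0 ≤ φ t) (t : ℝ) :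
    0 ≤ psi φ t := by
  by_cases ht : t ∈ tsupport φ
  · exact div_nonneg (h4 t) (one_sub_pos (h3 ht)).le
  · unfold psi
    rw [image_eq_zero_of_notMem_tsupport ht]
    simp

private lemma mul_psi (h3 : tsupport φ ⊆ Ioo (-1 : ℝ) 1) (t : ℝ) :
    (1 - t ^ 2) * psi φ t = φ t := by
  by_cases ht : t ∈ tsupport φ
  · unfold psi
    exact mul_div_cancel₀ _ (one_sub_pos (h3 ht)).ne'
  · unfold psi
    rw [image_eq_zero_of_notMem_tsupport ht]
    simp

private lemma ff_mul (t : ℝ) : ff t * φ t = |t| * psi φ t := by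
  unfold ff psi
  ring

private lemma int_abs_psi (h1 : ContDiff ℝ ∞ φ) (h2 : HasCompactSupport φ)
    (h3 : tsupport φ ⊆ Ioo (-1 : ℝ) 1) : Integrable fun t => ff t * φ t := by
  have e : (fun t => ff t * φ t) = fun t => |t| * psi φ t := funext fun t => ff_mul t
  rw [e]
  apply Continuous.integrable_of_hasCompactSupport
  · exact continuous_abs.mul (psi_smooth h1 h3).continuous
  · have e2 : (fun t => |t| * psi φ t) = fun t => ff t * φ t := e.symm
    rw [e2]
    exact h2.mul_left

private lemma dd_toReal {t : ℝ} (ht : t ∈ Ioo (-1 : ℝ) 1) : (dd t).toReal = ff t :=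
  ENNReal.toReal_ofReal (ff_nonneg ht)

private lemma int_mm (h1 : ContDiff ℝ ∞ φ) (h2 : HasCompactSupport φ)
    (h3 : tsupport φ ⊆ Ioo (-1 : ℝ) 1) : Integrable φ mm := by
  unfold mm
  rw [integrable_withDensity_iff_integrable_smul' dd_meas
    (Eventually.of_forall fun t => ENNReal.ofReal_lt_top)]
  have h4 : IntegrableOn (fun t => ff t * φ t) (Ioo (-1 : ℝ) 1) := (int_abs_psi h1 h2 h3).integrableOn
  refine Integrable.congr h4 ?_
  filter_upwards [ae_restrict_mem measurableSet_Ioo] with t ht
  rw [dd_toReal ht, smul_eq_mul]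

private lemma val_mm : ∫ t, φ t ∂mm = ∫ s in (-1 : ℝ)..1, |s| * psi φ s := by
  unfold mm
  rw [integral_withDensity_eq_integral_toReal_smul dd_meas
    (Eventually.of_forall fun t => ENNReal.ofReal_lt_top),
    intervalIntegral.integral_of_le (by norm_num), integral_Ioc_eq_integral_Ioo]
  refine setIntegral_congr_fun measurableSet_Ioo fun t ht => ?_
  change (dd t).toReal • φ t = |t| * psi φ t
  rw [dd_toReal ht, smul_eq_mul, ff_mul]

end psi

theorem hND : StNC → StNM → StND := by
  intro hC hM n e P N T hn he hP hN hzP hzN hG B hB hBs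
  have hip : Continuous fun w : sphere (0 : E n) 1 => (inner ℝ e (w : E n) : ℝ) :=
    continuous_const.inner continuous_subtype_val
  have hipm : Measurable fun w : sphere (0 : E n) 1 => (inner ℝ e (w : E n) : ℝ) := hip.measurable
  have hn1 : (0 : ℝ) ≤ (n : ℝ) - 1 := by
    have : (3 : ℝ) ≤ n := by exact_mod_cast hn
    linarith
  have hc0 : 0 ≤ ((n : ℝ) - 1) * (P univ).toReal := mul_nonneg hn1 ENNReal.toReal_nonneg
  set c : ENNReal := ENNReal.ofReal (((n : ℝ) - 1) * (P univ).toReal) with hc
  have key := hM (N.map fun w : sphere (0 : E n) 1 => (inner ℝ e (w : E n) : ℝ))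
    (P.map (fun w : sphere (0 : E n) 1 => (inner ℝ e (w : E n) : ℝ)) + c • mm)
    (Measure.isFiniteMeasure_map N _) ?_ ?_ B hB hBs
  · rw [Measure.map_apply hipm hB, Measure.add_apply, Measure.map_apply hipm hB,
      Measure.smul_apply, smul_eq_mul] at key
    refine key.trans (add_le_add le_rfl (mul_le_mul_right ?_ _))
    unfold mm
    rw [withDensity_apply _ hB, Measure.restrict_restrict hB]
    exact lintegral_mono_set inter_subset_left
  · intro K hK hKs
    rw [Measure.add_apply, Measure.smul_apply, smul_eq_mul]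
    exact ENNReal.add_lt_top.2 ⟨measure_lt_top _ _,
      ENNReal.mul_lt_top ENNReal.ofReal_lt_top (mm_compact hK hKs)⟩
  · intro φ h1 h2 h3 h4
    have hfin : IsFiniteMeasure (P.map fun w : sphere (0 : E n) 1 => (inner ℝ e (w : E n) : ℝ)) :=
      Measure.isFiniteMeasure_map P _
    have i1 : Integrable φ (P.map fun w : sphere (0 : E n) 1 => (inner ℝ e (w : E n) : ℝ)) :=
      h1.continuous.integrable_of_hasCompactSupport h2
    have i2 : Integrable φ (c • mm) := (int_mm h1 h2 h3).smul_measure ENNReal.ofReal_ne_top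
    rw [integral_add_measure i1 i2, integral_smul_measure, val_mm, hc, ENNReal.toReal_ofReal hc0,
      integral_map hipm.aemeasurable h1.continuous.aestronglyMeasurable,
      integral_map hipm.aemeasurable h1.continuous.aestronglyMeasurable, smul_eq_mul]
    have h := hC n e P N T (psi φ) hn he hP hN hzP hzN hG (psi_smooth h1 h3)
      (psi_nonneg h3 h4)
    simp only [mul_psi h3] at h
    exact h

end Pool.Agent.Helper69.PM
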